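import Pool.Agent.H59.LIN.Targets

/-!
# Board `lin_modules`, row CAB: binomial coefficients of functions on cubes
-/

set_option autoImplicit false

open Finset Polynomial

namespace Pool.Agent.H33.LIN

open Pool.Agent.H59.LIN

theorem cab_ch (x : ℤ) (k : ℕ) :
    (k.factorial : ℤ) * Ring.choose x k = ∏ i ∈ range k, (x - i) := by
  rw [← descPochhammer_eval_eq_prod_range k x, ← nsmul_eq_mul,
    ← Ring.descPochhammer_eq_factorial_smul_choose, ← Polynomial.eval_eq_smeval]

section

variable {α : Type} [DecidableEq α]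

theorem cab_add (A : Finset α) (F G : (α → Bool) → ℤ) (ε : α → Bool) :
    Dif A (fun ε => F ε + G ε) ε = Dif A F ε + Dif A G ε := by
  simp only [Dif, mul_add, Finset.sum_add_distrib]

theorem cab_mul (A : Finset α) (F : (α → Bool) → ℤ) (c : ℤ) (ε : α → Bool) :
    Dif A (fun ε => c * F ε) ε = c * Dif A F ε := by
  simp only [Dif, Finset.mul_sum]
  exact Finset.sum_congr rfl fun S _ => by ring

theorem cab_const (A : Finset α) (c : ℤ) (ε : α → Bool) :
    Dif A (fun _ => c) ε = if A = ∅ then c else 0 := by
  have h := Finset.sum_powerset_neg_one_pow_card (x := A)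
  rw [Dif, ← Finset.sum_mul, h]
  split_ifs <;> simp

end

theorem pf_CAB (hCAI : T_CAI) (hCAP : T_CAP) : T_CAB := by
  have _ := hCAI
  intro α _ _ F a c k ha hF
  -- the translates
  have h1 : ∀ c' : ℤ, Dg (fun ε => F ε + c') a ∧ sy (fun ε => F ε + c') a = sy F a := by
    intro c'
    refine ⟨fun A ε hA => ?_, ?_⟩
    · rw [cab_add, hF A ε hA, cab_const, if_neg, add_zero]
      rintro rfl
      simp at hA
    · funext A
      simp only [sy]
      split_ifs with hA
      · rw [cab_add, cab_const, if_neg, add_zero]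
        rintro rfl
        rw [Finset.card_empty] at hA
        omega
      · rfl
  -- the products
  have h2 : ∀ k : ℕ, Dg (fun ε => ∏ i ∈ range k, (F ε + c - i)) (a * k) ∧
      sy (fun ε => ∏ i ∈ range k, (F ε + c - i)) (a * k) = (sy F a) ^ k := by
    intro k
    induction k with
    | zero =>
      refine ⟨fun A ε hA => ?_, ?_⟩
      · simp only [Finset.prod_range_zero]
        rw [cab_const, if_neg]
        rintro rfl
        simp at hA
      · funext A
        rw [pow_zero, SF.one_def]
        simp only [sy, Finset.prod_range_zero, Nat.mul_zero, Finset.card_eq_zero]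
        by_cases hA : A = ∅
        · rw [if_pos hA, if_pos hA, cab_const, if_pos hA]
        · rw [if_neg hA, if_neg hA]
    | succ k ih =>
      have h3 : (fun ε => ∏ i ∈ range (k + 1), (F ε + c - i)) =
          fun ε => (∏ i ∈ range k, (F ε + c - i)) * (F ε + (c - k)) := by
        funext ε
        rw [Finset.prod_range_succ, add_sub_assoc]
      obtain ⟨h4, h5⟩ := hCAP α ℤ _ _ (a * k) a ih.1 (h1 (c - k)).1
      rw [h3, Nat.mul_succ, pow_succ, ← ih.2]
      refine ⟨h4, ?_⟩
      rw [h5, (h1 _).2]
  have h6 : ∀ (A : Finset α) (ε : α → Bool),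
      (k.factorial : ℤ) * Dif A (fun ε => Ring.choose (F ε + c) k) ε =
        Dif A (fun ε => ∏ i ∈ range k, (F ε + c - i)) ε := by
    intro A ε
    rw [← cab_mul]
    simp only [cab_ch]
  obtain ⟨h7, h8⟩ := h2 k
  refine ⟨fun A ε hA => ?_, fun A => ?_⟩
  · have h9 := h6 A ε
    rw [h7 A ε hA] at h9
    rcases mul_eq_zero.1 h9 with h | h
    · exact absurd (by exact_mod_cast h) (Nat.factorial_ne_zero k)
    · exact h
  · rw [← h8]
    simp only [sy]
    split_ifs
    · exact h6 A _
    · exact mul_zero _

end Pool.Agent.H33.LIN
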